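import Mathlib

/-!
# Continuous endomorphisms of the circle group
-/

open Filter Topology MeasureTheory

namespace Q16.Tor

/-- The circle group. -/
abbrev T : Type := UnitAddCircle

theorem norm_le_half (t : T) : ‖t‖ ≤ 1 / 2 := by
  have := AddCircle.norm_le_half_period (1 : ℝ) (x := t) one_ne_zero
  simpa using this

/-- A nonzero continuous endomorphism of the circle is surjective. -/
theorem surj_of_ne_zero (f : T →+ T) (hf : Continuous f) (h0 : f ≠ 0) : Function.Surjective f := by
  have hcomp : IsCompact (Set.range f) := isCompact_range hf
  by_cases hd : Dense (f.range : Set T)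
  · have h1 : closure (Set.range f) = Set.univ := by
      have := hd.closure_eq
      rwa [AddMonoidHom.coe_range] at this
    rw [hcomp.isClosed.closure_eq] at h1
    exact Set.range_eq_univ.1 h1
  · exfalso
    rw [AddCircle.dense_addSubgroup_iff_ne_zmultiples] at hd
    push Not at hd
    obtain ⟨a, ha, hfa⟩ := hd
    have hfin : (Set.range f).Finite := by
      have h1 : (Set.range f) = ((AddSubgroup.zmultiples a : AddSubgroup T) : Set T) := by
        rw [← hfa, AddMonoidHom.coe_range]
      rw [h1]
      have h2 : IsOfFinAddOrder a := by
        by_contra hc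
        exact ha (addOrderOf_eq_zero hc)
      exact h2.finite_zmultiples
    have hpre : IsPreconnected (Set.range f) := isPreconnected_range hf
    apply h0
    by_contra hne
    have hnt : (Set.range f).Nontrivial := by
      obtain ⟨t, ht⟩ : ∃ t, f t ≠ 0 := by
        by_contra hc
        push Not at hc
        exact hne (AddMonoidHom.ext hc)
      exact ⟨f t, ⟨t, rfl⟩, 0, ⟨0, map_zero f⟩, ht⟩
    exact hpre.infinite_of_nontrivial hnt hfin

/-- A sequence of continuous endomorphisms converging pointwise to `0` is eventually `0`. -/
theorem eventually_zero (f : ℕ → T →+ T) (hf : ∀ n, Continuous (f n))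
    (h : ∀ t, Tendsto (fun n => f n t) atTop (𝓝 0)) : ∀ᶠ n in atTop, f n = 0 := by
  by_contra hc
  have hfreq : ∃ᶠ n in atTop, f n ≠ 0 := by
    rw [Filter.Frequently]
    simpa using hc
  obtain ⟨φ, hφ, hne⟩ := extraction_of_frequently_atTop hfreq
  have hmp : ∀ n, MeasurePreserving (f (φ n)) (volume : Measure T) volume := fun n =>
    (f (φ n)).measurePreserving (μ := (volume : Measure T)) (hf _)
      (surj_of_ne_zero _ (hf _) (hne n)) rfl
  have hint : ∀ n, ∫ t, ‖f (φ n) t‖ ∂(volume : Measure T) = ∫ t, ‖t‖ ∂(volume : Measure T) := by
    intro n
    have h1 : (volume : Measure T).map (f (φ n)) = volume := (hmp n).map_eq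
    have h2 := integral_map (μ := (volume : Measure T)) (φ := f (φ n)) (hf _).measurable.aemeasurable
      (f := fun t : T => ‖t‖) (by
        rw [h1]
        exact continuous_norm.aestronglyMeasurable)
    rw [h1] at h2
    exact h2.symm
  have hlim : Tendsto (fun n => ∫ t, ‖f (φ n) t‖ ∂(volume : Measure T)) atTop
      (𝓝 (∫ _, (0 : ℝ) ∂(volume : Measure T))) := by
    apply tendsto_integral_of_dominated_convergence (fun _ => (1 / 2 : ℝ))
    · intro n
      exact ((hf _).norm).aestronglyMeasurable
    · exact integrable_const _
    · intro n
      filter_upwards with t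
      rw [norm_norm]
      exact norm_le_half _
    · filter_upwards with t
      have := ((h t).comp hφ.tendsto_atTop).norm
      rw [norm_zero] at this
      exact this
  simp only [hint, integral_zero] at hlim
  have h3 : ∫ t, ‖t‖ ∂(volume : Measure T) = 0 := tendsto_nhds_unique tendsto_const_nhds hlim
  have hpos : 0 < ∫ t, ‖t‖ ∂(volume : Measure T) := by
    rw [integral_pos_iff_support_of_nonneg (fun t => norm_nonneg t)]
    · have hopen : IsOpen (Function.support fun t : T => ‖t‖) := by
        have : (Function.support fun t : T => ‖t‖) = {0}ᶜ := by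
          ext t
          simp
        rw [this]
        exact isOpen_compl_singleton
      refine hopen.measure_pos (volume : Measure T) ⟨((1 / 2 : ℝ) : T), ?_⟩
      simp only [Function.mem_support]
      have := AddCircle.norm_half_period_eq (1 : ℝ)
      rw [this]
      norm_num
    · exact Integrable.of_bound continuous_norm.aestronglyMeasurable (1 / 2)
        (Eventually.of_forall fun t => by rw [norm_norm]; exact norm_le_half t)
  exact absurd h3 hpos.ne'

end Q16.Tor
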