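import Mathlib

/-!
# Sequences of exhaustive finitely additive set functions

A sequence of exhaustive finitely additive set functions `m_n` on the subsets of `ℕ` (with values
in an abelian group) such that for every `A` we have `m_n A = 0` eventually, is eventually zero.
-/

open Filter

namespace Q16.Tor

variable {Λ : Type*} [AddCommGroup Λ]

/-- Finitely additive. -/
def FinAdd (m : Set ℕ → Λ) : Prop := ∀ A B, Disjoint A B → m (A ∪ B) = m A + m B

/-- Exhaustive (every disjoint sequence has a null member). -/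
def Exh (m : Set ℕ → Λ) : Prop :=
  ∀ A : ℕ → Set ℕ, Pairwise (Function.onFun Disjoint A) → ∃ i, m (A i) = 0

theorem FinAdd.empty {m : Set ℕ → Λ} (h : FinAdd m) : m ∅ = 0 := by
  have := h ∅ ∅ (by simp)
  rw [Set.union_empty] at this
  exact left_eq_add.1 this

theorem FinAdd.null_finset {m : Set ℕ → Λ} (h : FinAdd m) (F : Finset ℕ)
    (hF : ∀ k ∈ F, m {k} = 0) : m (F : Set ℕ) = 0 := by
  classical
  induction F using Finset.induction_on with
  | empty => simpa using h.empty
  | insert a s ha ih =>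
    rw [Finset.coe_insert, Set.insert_eq, h _ _ (by simpa using ha),
      hF a (Finset.mem_insert_self a s), ih fun k hk => hF k (Finset.mem_insert_of_mem hk), add_zero]

/-- Every infinite set contains an infinite set all of whose subsets are null. -/
theorem exists_null {m : Set ℕ → Λ} (h : Exh m) (I : Set ℕ) (hI : I.Infinite) :
    ∃ I' ⊆ I, I'.Infinite ∧ ∀ A ⊆ I', m A = 0 := by
  by_contra hc
  push Not at hc
  -- partition `I` into infinitely many infinite sets
  have hinfI : Infinite I := hI.to_subtype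
  let e : ℕ ≃ I := (Nat.Subtype.orderIsoOfNat I).toEquiv
  let P : ℕ → Set ℕ := fun l => {k | ∃ j, k = (e (Nat.pair l j) : ℕ)}
  have hP : ∀ l, (P l).Infinite := by
    intro l
    have : P l = Set.range fun j => (e (Nat.pair l j) : ℕ) := by
      ext k
      simp [P, eq_comm]
    rw [this]
    apply Set.infinite_range_of_injective
    intro j j' hjj
    have h1 := e.injective (Subtype.ext hjj)
    have := Nat.pair_eq_pair.1 h1
    exact this.2
  have hPI : ∀ l, P l ⊆ I := by
    rintro l _ ⟨j, rfl⟩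
    exact (e (Nat.pair l j)).2
  choose A hA hmA using fun l => hc (P l) (hPI l) (hP l)
  obtain ⟨i, hi⟩ := h A (by
    intro l l' hll
    rw [Function.onFun, Set.disjoint_left]
    intro k hk hk'
    obtain ⟨j, hj⟩ := hA l hk
    obtain ⟨j', hj'⟩ := hA l' hk'
    rw [hj] at hj'
    have h1 := e.injective (Subtype.ext hj')
    exact hll (Nat.pair_eq_pair.1 h1).1)
  exact hmA i hi

/-- The first step: diagonal nonvanishing is impossible. -/
theorem comb1 (r : ℕ → Set ℕ → Λ) (hadd : ∀ n, FinAdd (r n)) (hex : ∀ n, Exh (r n))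
    (hlim : ∀ A, ∀ᶠ n in atTop, r n A = 0) : ∃ n, r n {n} = 0 := by
  by_contra hc
  push Not at hc
  -- one step
  have step : ∀ I : Set ℕ, I.Infinite → ∃ i ∈ I, ∃ I' ⊆ I, I'.Infinite ∧ i ∉ I' ∧
      (∀ A ⊆ I', r i A = 0) ∧ ∀ n ∈ I', r n {i} = 0 := by
    intro I hI
    obtain ⟨i, hi⟩ := hI.nonempty
    obtain ⟨I₁, hI₁, hinf, hnull⟩ := exists_null (hex i) I hI
    obtain ⟨N, hN⟩ := eventually_atTop.1 (hlim {i})
    refine ⟨i, hi, {n ∈ I₁ | max N (i + 1) ≤ n}, fun n hn => hI₁ hn.1, ?_, ?_, ?_, ?_⟩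
    · have : {n ∈ I₁ | max N (i + 1) ≤ n} = I₁ \ {n | n < max N (i + 1)} := by
        ext n
        simp only [Set.mem_ofPred_eq, Set.mem_sdiff, not_lt]
      rw [this]
      exact hinf.sdiff (Set.finite_lt_nat _)
    · intro h
      have := h.2
      have := (le_max_right N (i + 1)).trans this
      lia
    · intro A hA
      exact hnull A fun n hn => (hA hn).1
    · intro n hn
      exact hN n ((le_max_left _ _).trans hn.2)
  choose f hf g hg hginf hfg hnull hnull' using step
  -- the recursion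
  let D : ℕ → {I : Set ℕ // I.Infinite} := fun l =>
    Nat.rec ⟨Set.univ, Set.infinite_univ⟩ (fun _ I => ⟨g I.1 I.2, hginf I.1 I.2⟩) l
  let i : ℕ → ℕ := fun l => f (D l).1 (D l).2
  have hDsucc : ∀ l, (D (l + 1)).1 = g (D l).1 (D l).2 := fun l => rfl
  have hDanti : ∀ l l', l ≤ l' → (D l').1 ⊆ (D l).1 := by
    intro l l' hll
    induction l', hll using Nat.le_induction with
    | base => exact subset_rfl
    | succ l' _ ih => exact (hg _ _).trans ih
  have hiD : ∀ l, i l ∈ (D l).1 := fun l => hf _ _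
  have hsmall : ∀ l l', l < l' → r (i l') {i l} = 0 := by
    intro l l' hll
    apply hnull' (D l).1 (D l).2
    have h1 := hiD l'
    exact hDanti (l + 1) l' hll h1
  have hinj : ∀ l l', l < l' → i l' ≠ i l := by
    intro l l' hll h
    apply hfg (D l).1 (D l).2
    have h1 := hDanti (l + 1) l' hll (hiD l')
    rw [h] at h1
    exact h1
  let J : Set ℕ := Set.range i
  have hJ : ∀ l, r (i l) J = r (i l) {i l} := by
    intro l
    have e1 : J = (((Finset.range l).image i : Finset ℕ) : Set ℕ) ∪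
        ({i l} ∪ {k | ∃ l' > l, k = i l'}) := by
      ext k
      simp only [J, Set.mem_range, Finset.coe_image, Finset.coe_range, Set.mem_union, Set.mem_image,
        Set.mem_Iio, Set.mem_singleton_iff]
      constructor
      · rintro ⟨l', rfl⟩
        rcases lt_trichotomy l' l with h | h | h
        · exact Or.inl ⟨l', h, rfl⟩
        · exact Or.inr (Or.inl (by rw [h]))
        · exact Or.inr (Or.inr ⟨l', h, rfl⟩)
      · rintro (⟨l', -, h⟩ | h | ⟨l', -, h⟩)
        · exact ⟨l', h⟩
        · exact ⟨l, h.symm⟩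
        · exact ⟨l', h.symm⟩
    have d1 : Disjoint (((Finset.range l).image i : Finset ℕ) : Set ℕ)
        ({i l} ∪ {k | ∃ l' > l, k = i l'}) := by
      rw [Set.disjoint_left]
      intro k hk hk'
      simp only [Finset.coe_image, Finset.coe_range, Set.mem_image, Set.mem_Iio] at hk
      obtain ⟨a, ha, rfl⟩ := hk
      rcases hk' with hk' | ⟨l', hl', hk'⟩
      · exact hinj a l ha hk'.symm
      · exact hinj a l' (ha.trans hl') hk'.symm
    have d2 : Disjoint ({i l} : Set ℕ) {k | ∃ l' > l, k = i l'} := by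
      rw [Set.disjoint_left]
      rintro k rfl ⟨l', hl', hk'⟩
      exact hinj l l' hl' hk'.symm
    have z1 : r (i l) (((Finset.range l).image i : Finset ℕ) : Set ℕ) = 0 := by
      apply (hadd _).null_finset
      intro k hk
      rw [Finset.mem_image] at hk
      obtain ⟨a, ha, rfl⟩ := hk
      exact hsmall a l (Finset.mem_range.1 ha)
    have z2 : r (i l) {k | ∃ l' > l, k = i l'} = 0 := by
      apply hnull (D l).1 (D l).2
      rintro k ⟨l', hl', rfl⟩
      exact hDanti (l + 1) l' hl' (hiD l')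
    rw [e1, hadd _ _ _ d1, hadd _ _ _ d2, z1, z2, zero_add, add_zero]
  have hunb : ∀ N, ∃ l, N ≤ i l := by
    intro N
    by_contra hcon
    push Not at hcon
    have hinj' : Function.Injective i := by
      intro l l' h
      rcases lt_trichotomy l l' with h' | h' | h'
      · exact absurd h.symm (hinj _ _ h')
      · exact h'
      · exact absurd h (hinj _ _ h')
    exact Set.infinite_range_of_injective hinj'
      ((Set.finite_lt_nat N).subset (by rintro _ ⟨l, rfl⟩; exact hcon l))
  obtain ⟨N, hN⟩ := eventually_atTop.1 (hlim J)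
  obtain ⟨l, hl⟩ := hunb N
  have h1 := hN (i l) hl
  rw [hJ] at h1
  exact hc (i l) h1

/-- The main combinatorial statement. -/
theorem comb (m : ℕ → Set ℕ → Λ) (hadd : ∀ n, FinAdd (m n)) (hex : ∀ n, Exh (m n))
    (hlim : ∀ A, ∀ᶠ n in atTop, m n A = 0) : ∀ᶠ n in atTop, ∀ A, m n A = 0 := by
  by_contra hc
  -- big sets
  let Big : Set ℕ → Prop := fun D => ∀ N, ∃ n ≥ N, ∃ A ⊆ D, m n A ≠ 0
  have hbig0 : Big Set.univ := by
    intro N
    by_contra hcon
    push Not at hcon
    apply hc
    filter_upwards [eventually_ge_atTop N] with n hn A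
    exact hcon n hn A (Set.subset_univ A)
  have hsplit : ∀ C D' : Set ℕ, Big (C ∪ D') → Big C ∨ Big D' := by
    intro C D' hb
    by_contra hcon
    push Not at hcon
    obtain ⟨h1, h2⟩ := hcon
    simp only [Big, not_forall, not_exists, not_and] at h1 h2
    obtain ⟨N₁, h1⟩ := h1
    obtain ⟨N₂, h2⟩ := h2
    obtain ⟨n, hn, A, hA, hmA⟩ := hb (max N₁ N₂)
    apply hmA
    have e : A = (A ∩ C) ∪ (A \ C) := (Set.inter_union_sdiff A C).symm
    rw [e, hadd n _ _ (Set.disjoint_left.2 fun k hk hk' => hk'.2 hk.2)]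
    have h3 := not_not.1 (h1 n ((le_max_left _ _).trans hn) (A ∩ C) Set.inter_subset_right)
    have h4 := not_not.1 (h2 n ((le_max_right _ _).trans hn) (A \ C) (by
      intro k hk
      rcases hA hk.1 with h | h
      · exact absurd h hk.2
      · exact h))
    rw [h3, h4, add_zero]
  have step : ∀ D, Big D → ∀ N, ∃ n ≥ N, ∃ C ⊆ D, ∃ D' ⊆ D, Disjoint C D' ∧ m n C ≠ 0 ∧ Big D' := by
    intro D hD N
    obtain ⟨N', hN'⟩ := eventually_atTop.1 (hlim D)
    obtain ⟨n, hn, A, hA, hmA⟩ := hD (max N N')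
    have hmD : m n D = 0 := hN' n ((le_max_right _ _).trans hn)
    have e : D = A ∪ (D \ A) := (Set.union_sdiff_cancel hA).symm
    have hdis : Disjoint A (D \ A) := Set.disjoint_left.2 fun k hk hk' => hk'.2 hk
    have hm2 : m n (D \ A) ≠ 0 := by
      intro h
      rw [e, hadd n _ _ hdis, h, add_zero] at hmD
      exact hmA hmD
    have hD' : Big (A ∪ (D \ A)) := by
      rw [← e]
      exact hD
    rcases hsplit _ _ hD' with h | h
    · exact ⟨n, (le_max_left _ _).trans hn, D \ A, Set.sdiff_subset, A, hA, hdis.symm, hm2, h⟩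
    · exact ⟨n, (le_max_left _ _).trans hn, A, hA, D \ A, Set.sdiff_subset, hdis, hmA, h⟩
  choose! f hf C hC g hg hdis hmC hbg using step
  -- the recursion
  let S : ℕ → {D : Set ℕ // Big D} × ℕ := fun l =>
    Nat.rec (⟨Set.univ, hbig0⟩, 0)
      (fun _ s => (⟨g s.1.1 s.2, hbg s.1.1 s.1.2 s.2⟩, f s.1.1 s.2 + 1)) l
  let c : ℕ → Set ℕ := fun l => C (S l).1.1 (S l).2
  let ν : ℕ → ℕ := fun l => f (S l).1.1 (S l).2
  have hS1 : ∀ l, ((S (l + 1)).1.1 : Set ℕ) = g (S l).1.1 (S l).2 := fun l => rfl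
  have hS2 : ∀ l, (S (l + 1)).2 = ν l + 1 := fun l => rfl
  have hanti : ∀ l l', l ≤ l' → ((S l').1.1 : Set ℕ) ⊆ (S l).1.1 := by
    intro l l' hll
    induction l', hll using Nat.le_induction with
    | base => exact subset_rfl
    | succ l' _ ih => exact (hg _ (S l').1.2 _).trans ih
  have hcS : ∀ l, c l ⊆ (S l).1.1 := fun l => hC _ (S l).1.2 _
  have hcdis : ∀ l l', l < l' → Disjoint (c l) (c l') := by
    intro l l' hll
    have h1 : c l' ⊆ g (S l).1.1 (S l).2 := (hcS l').trans (hanti (l + 1) l' hll)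
    exact (hdis _ (S l).1.2 _).mono_right h1
  have hpair : Pairwise (Function.onFun Disjoint c) := by
    intro l l' hll
    rcases lt_or_gt_of_ne hll with h | h
    · exact hcdis l l' h
    · exact (hcdis l' l h).symm
  have hν : ∀ l, l ≤ ν l := by
    intro l
    induction l with
    | zero => exact Nat.zero_le _
    | succ l ih =>
      have h1 : (S (l + 1)).2 ≤ ν (l + 1) := hf _ (S (l + 1)).1.2 _
      rw [hS2] at h1
      lia
  -- the induced set functions
  let r : ℕ → Set ℕ → Λ := fun l J => m (ν l) (⋃ j ∈ J, c j)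
  have hU : ∀ J J' : Set ℕ, Disjoint J J' → Disjoint (⋃ j ∈ J, c j) (⋃ j ∈ J', c j) := by
    intro J J' hJ
    rw [Set.disjoint_left]
    intro k hk hk'
    simp only [Set.mem_iUnion] at hk hk'
    obtain ⟨j, hj, hkj⟩ := hk
    obtain ⟨j', hj', hkj'⟩ := hk'
    have hne : j ≠ j' := by
      rintro rfl
      exact Set.disjoint_left.1 hJ hj hj'
    exact Set.disjoint_left.1 (hpair hne) hkj hkj'
  obtain ⟨l, hl⟩ := comb1 r (by
      intro l A B hAB
      change m (ν l) (⋃ j ∈ A ∪ B, c j) = _
      rw [Set.biUnion_union, hadd _ _ _ (hU A B hAB)])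
    (by
      intro l A hA
      obtain ⟨i, hi⟩ := hex (ν l) (fun i => ⋃ j ∈ A i, c j) (by
        intro i i' hii
        exact hU _ _ (hA hii))
      exact ⟨i, hi⟩)
    (by
      intro J
      obtain ⟨N, hN⟩ := eventually_atTop.1 (hlim (⋃ j ∈ J, c j))
      filter_upwards [eventually_ge_atTop N] with l hl
      exact hN _ (hl.trans (hν l)))
  have h1 : r l {l} = m (ν l) (c l) := by
    change m (ν l) (⋃ j ∈ ({l} : Set ℕ), c j) = _
    rw [Set.biUnion_singleton]
  rw [h1] at hl
  exact hmC _ (S l).1.2 _ hl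

end Q16.Tor
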