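import Mathlib
import Pool.Agent.Q16.Tor.Comb
import Pool.Agent.Q16.Tor.Circ

/-!
# The group of bounded sequences in the circle, and its dual
-/

open Filter Topology

namespace Q16.Tor

/-- All sequences in the circle, with the uniform metric. -/
abbrev Gp : Type := BoundedContinuousFunction ℕ T

/-- Every sequence is an element. -/
noncomputable def mkG (f : ℕ → T) : Gp :=
  BoundedContinuousFunction.ofNormedAddCommGroupDiscrete f (1 / 2) fun _ => norm_le_half _

theorem mkG_apply (f : ℕ → T) (k : ℕ) : mkG f k = f k := rfl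

open Classical in
/-- The element equal to `t` on `A` and to `0` off `A`. -/
noncomputable def ind (A : Set ℕ) (t : T) : Gp := mkG fun k => if k ∈ A then t else 0

open Classical in
theorem ind_apply (A : Set ℕ) (t : T) (k : ℕ) : ind A t k = if k ∈ A then t else 0 := rfl

theorem ind_add (A : Set ℕ) (t u : T) : ind A (t + u) = ind A t + ind A u := by
  classical
  ext k
  rw [BoundedContinuousFunction.add_apply, ind_apply, ind_apply, ind_apply]
  split_ifs <;> simp

theorem ind_union (A B : Set ℕ) (h : Disjoint A B) (t : T) : ind (A ∪ B) t = ind A t + ind B t := by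
  classical
  ext k
  rw [BoundedContinuousFunction.add_apply, ind_apply, ind_apply, ind_apply]
  by_cases h1 : k ∈ A
  · have h2 : k ∉ B := Set.disjoint_left.1 h h1
    simp [h1, h2]
  · by_cases h2 : k ∈ B <;> simp [h1, h2]

theorem norm_ind_le (A : Set ℕ) (t : T) : ‖ind A t‖ ≤ ‖t‖ := by
  classical
  rw [BoundedContinuousFunction.norm_le (norm_nonneg t)]
  intro k
  rw [ind_apply]
  split_ifs
  · exact le_rfl
  · rw [norm_zero]
    exact norm_nonneg t

/-- `ind` as a homomorphism. -/
noncomputable def indHom (A : Set ℕ) : T →+ Gp where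
  toFun := ind A
  map_zero' := by
    have := ind_add A 0 0
    rw [add_zero] at this
    exact left_eq_add.1 this
  map_add' := ind_add A

theorem continuous_ind (A : Set ℕ) : Continuous (ind A) := by
  have : Continuous (indHom A) := AddMonoidHomClass.continuous_of_bound (indHom A) 1 (by
    intro t
    rw [one_mul]
    exact norm_ind_le A t)
  exact this

/-- The set function of a character. -/
noncomputable def mm (χ : Gp →+ T) (A : Set ℕ) : T →+ T := χ.comp (indHom A)

theorem mm_apply (χ : Gp →+ T) (A : Set ℕ) (t : T) : mm χ A t = χ (ind A t) := rfl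

theorem continuous_mm {χ : Gp →+ T} (hχ : Continuous χ) (A : Set ℕ) : Continuous (mm χ A) :=
  hχ.comp (continuous_ind A)

theorem finAdd_mm (χ : Gp →+ T) : FinAdd (mm χ) := by
  intro A B h
  refine AddMonoidHom.ext fun t => ?_
  rw [AddMonoidHom.add_apply, mm_apply, mm_apply, mm_apply, ind_union A B h, map_add]

/-- The point of order two. -/
noncomputable def half : T := ((1 / 2 : ℝ) : T)

theorem norm_half : ‖half‖ = 1 / 2 := by
  have := AddCircle.norm_half_period_eq (1 : ℝ)
  rw [half, this]
  norm_num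

theorem two_half : (2 : ℕ) • half = 0 := by
  rw [half, ← AddCircle.coe_nsmul]
  have : (2 : ℕ) • (1 / 2 : ℝ) = 1 := by norm_num
  rw [this]
  exact AddCircle.coe_period 1

theorem exists_div (u : T) (K : ℕ) (hK : 0 < K) : ∃ s : T, ‖s‖ ≤ 1 / (2 * K) ∧ K • s = u := by
  have hu : u ∈ ((↑) : ℝ → T) '' Set.Ioc (-1 / 2) (-1 / 2 + 1) := by
    rw [AddCircle.coe_image_Ioc_eq]
    exact Set.mem_univ u
  obtain ⟨r, hr, rfl⟩ := hu
  have hK' : (0 : ℝ) < K := by exact_mod_cast hK
  refine ⟨((r / K : ℝ) : T), ?_, ?_⟩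
  · have h1 : ‖((r / K : ℝ) : T)‖ ≤ ‖(r / K : ℝ)‖ := QuotientAddGroup.norm_mk_le_norm
    refine h1.trans ?_
    rw [Real.norm_eq_abs, abs_div, abs_of_pos hK']
    have h2 : |r| ≤ 1 / 2 := by
      rw [abs_le]
      constructor
      · linarith [hr.1]
      · linarith [hr.2]
    rw [div_le_div_iff₀ hK' (by positivity)]
    nlinarith
  · rw [← AddCircle.coe_nsmul]
    congr 1
    rw [nsmul_eq_mul]
    field_simp

theorem exists_ball {χ : Gp →+ T} (hχ : Continuous χ) (ε : ℝ) (hε : 0 < ε) :
    ∃ δ > 0, ∀ x : Gp, ‖x‖ < δ → ‖χ x‖ < ε := by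
  have h := Metric.continuousAt_iff.1 (hχ.continuousAt (x := 0)) ε hε
  obtain ⟨δ, hδ, h⟩ := h
  refine ⟨δ, hδ, fun x hx => ?_⟩
  have := h (x := x) (by rwa [dist_zero_right])
  rwa [map_zero, dist_zero_right] at this

/-- Exhaustivity. -/
theorem exh_mm {χ : Gp →+ T} (hχ : Continuous χ) : Exh (mm χ) := by
  classical
  intro A hA
  by_contra hc
  push Not at hc
  obtain ⟨δ, hδ, hball⟩ := exists_ball hχ (1 / 2) (by norm_num)
  obtain ⟨K, hK⟩ := exists_nat_gt (1 / δ)
  have hK' : (0 : ℝ) < K := lt_trans (by positivity) hK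
  have hK0 : 0 < K := by exact_mod_cast hK'
  have hKδ : 1 / (2 * (K : ℝ)) < δ := by
    rw [div_lt_iff₀ (by positivity)]
    rw [div_lt_iff₀ hδ] at hK
    nlinarith
  have hs : ∀ i, ∃ s : T, ‖s‖ ≤ 1 / (2 * K) ∧ K • (mm χ (A i) s) = half := by
    intro i
    obtain ⟨u, hu⟩ := surj_of_ne_zero _ (continuous_mm hχ (A i)) (hc i) half
    obtain ⟨s, hs1, hs2⟩ := exists_div u K hK0
    refine ⟨s, hs1, ?_⟩
    rw [← map_nsmul, hs2, hu]
  choose s hs1 hs2 using hs
  let W : Set T := {w | K • w = half}
  have hW : W.Finite := by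
    apply (AddCircle.finite_torsion (1 : ℝ) (n := 2 * K) (by lia)).subset
    intro w hw
    change (2 * K) • w = 0
    rw [mul_nsmul', hw, two_half]
  have hWf : Finite W := hW
  let f : ℕ → W := fun i => ⟨mm χ (A i) (s i), hs2 i⟩
  obtain ⟨w, hw⟩ := Finite.exists_infinite_fiber f
  have hw' : (f ⁻¹' {w}).Infinite := Set.infinite_coe_iff.1 hw
  obtain ⟨I, hI, hcard⟩ := hw'.exists_subset_card_eq K
  let x : Gp := ∑ i ∈ I, ind (A i) (s i)
  have hx1 : χ x = half := by
    rw [map_sum]
    have : ∀ i ∈ I, χ (ind (A i) (s i)) = (w : T) := by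
      intro i hi
      have h1 : f i = w := hI hi
      rw [← h1]
      rfl
    rw [Finset.sum_congr rfl this, Finset.sum_const, hcard]
    exact w.2
  have hx2 : ‖x‖ ≤ 1 / (2 * K) := by
    rw [BoundedContinuousFunction.norm_le (by positivity)]
    intro k
    have e : x k = ∑ i ∈ I, ind (A i) (s i) k := by
      simp only [x]
      rw [BoundedContinuousFunction.coe_sum, Finset.sum_apply]
    rw [e]
    by_cases hk : ∃ i ∈ I, k ∈ A i
    · obtain ⟨i, hi, hki⟩ := hk
      rw [Finset.sum_eq_single i]
      · rw [ind_apply, if_pos hki]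
        exact hs1 i
      · intro j _ hj
        rw [ind_apply, if_neg]
        exact fun hkj => Set.disjoint_left.1 (hA hj) hkj hki
      · intro h
        exact absurd hi h
    · push Not at hk
      rw [Finset.sum_eq_zero]
      · rw [norm_zero]
        positivity
      · intro i hi
        rw [ind_apply, if_neg (hk i hi)]
  have h3 := hball x (lt_of_le_of_lt hx2 hKδ)
  rw [hx1, norm_half] at h3
  exact lt_irrefl _ h3

/-- A character is determined by its set function. -/
theorem eq_zero_of_mm {χ : Gp →+ T} (hχ : Continuous χ) (h : ∀ A, mm χ A = 0) : χ = 0 := by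
  classical
  ext x
  rw [AddMonoidHom.zero_apply]
  by_contra hne
  have hpos : 0 < ‖χ x‖ := norm_pos_iff.2 hne
  obtain ⟨δ, hδ, hball⟩ := exists_ball hχ ‖χ x‖ hpos
  obtain ⟨N, hN⟩ := exists_nat_gt (1 / δ)
  have hN' : (0 : ℝ) < N := lt_trans (by positivity) hN
  have hNδ : 1 / (N : ℝ) < δ := by
    rw [div_lt_iff₀ hN']
    rw [div_lt_iff₀ hδ] at hN
    linarith
  choose r hr hrx using fun k => AddCircle.eq_coe_Ico (p := (1 : ℝ)) (x k)
  let j : ℕ → ℕ := fun k => ⌊(N : ℝ) * r k⌋₊
  have hj : ∀ k, j k < N := by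
    intro k
    rw [Nat.floor_lt (mul_nonneg hN'.le (hr k).1)]
    have := (hr k).2
    nlinarith
  let y : Gp := ∑ l ∈ Finset.range N, ind {k | j k = l} (((l : ℝ) / N : ℝ) : T)
  have hy : χ y = 0 := by
    rw [map_sum]
    apply Finset.sum_eq_zero
    intro l _
    rw [← mm_apply, h, AddMonoidHom.zero_apply]
  have hyk : ∀ k, y k = (((j k : ℝ) / N : ℝ) : T) := by
    intro k
    have e : y k = ∑ l ∈ Finset.range N, ind {k | j k = l} (((l : ℝ) / N : ℝ) : T) k := by
      simp only [y]
      rw [BoundedContinuousFunction.coe_sum, Finset.sum_apply]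
    rw [e, Finset.sum_eq_single (j k)]
    · rw [ind_apply, if_pos]
      rfl
    · intro l _ hl
      rw [ind_apply, if_neg]
      exact fun h' => hl h'.symm
    · intro h'
      exact absurd (Finset.mem_range.2 (hj k)) h'
  have hxy : ‖x - y‖ ≤ 1 / N := by
    rw [BoundedContinuousFunction.norm_le (by positivity)]
    intro k
    rw [BoundedContinuousFunction.sub_apply, hyk, ← hrx k, ← AddCircle.coe_sub]
    refine (QuotientAddGroup.norm_mk_le_norm (S := AddSubgroup.zmultiples (1 : ℝ))
      (m := r k - (j k : ℝ) / N)).trans ?_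
    rw [Real.norm_eq_abs, abs_le]
    have h1 : (j k : ℝ) ≤ N * r k := Nat.floor_le (mul_nonneg hN'.le (hr k).1)
    have h2 : (N : ℝ) * r k < j k + 1 := Nat.lt_floor_add_one _
    have e1 : r k - (j k : ℝ) / N = (N * r k - j k) / N := by
      field_simp
    rw [e1]
    constructor
    · rw [← neg_div, div_le_div_iff_of_pos_right hN']
      linarith
    · rw [div_le_div_iff_of_pos_right hN']
      linarith
  have h4 := hball (x - y) (lt_of_le_of_lt hxy hNδ)
  rw [map_sub, hy, sub_zero] at h4
  exact lt_irrefl _ h4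

/-- The dual group. -/
abbrev Gd : Type := Gp →ₜ+ T

theorem continuous_eval (x : Gp) : Continuous fun χ : Gd => χ x := by
  have h : Continuous (ContinuousAddMonoidHom.toContinuousMap : Gd → C(Gp, T)) :=
    continuous_induced_dom
  exact (continuous_eval_const (F := C(Gp, T)) x).comp h

/-- The dual has no nontrivial null sequences. -/
theorem null_seq (χ : ℕ → Gd) (h : Tendsto χ atTop (𝓝 0)) : ∀ᶠ n in atTop, χ n = 0 := by
  have hpt : ∀ x : Gp, Tendsto (fun n => χ n x) atTop (𝓝 0) := by
    intro x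
    have := ((continuous_eval x).tendsto 0).comp h
    exact this
  have h1 := comb (fun n => mm ((χ n : Gd) : Gp →+ T)) (fun n => finAdd_mm _)
    (fun n => exh_mm (χ n).continuous_toFun)
    (by
      intro A
      apply eventually_zero
      · intro n
        exact continuous_mm (χ n).continuous_toFun A
      · intro t
        exact hpt (ind A t))
  filter_upwards [h1] with n hn
  have h2 := eq_zero_of_mm (χ := ((χ n : Gd) : Gp →+ T)) (χ n).continuous_toFun hn
  ext x
  exact DFunLike.congr_fun h2 x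

/-- The coordinate characters. -/
noncomputable def cood (k : ℕ) : Gd where
  toFun x := x k
  map_zero' := rfl
  map_add' _ _ := rfl
  continuous_toFun := continuous_eval_const (F := Gp) k

theorem cood_apply (k : ℕ) (x : Gp) : cood k x = x k := rfl

/-- The dual is not discrete. -/
theorem not_isolated (U : Set Gd) (hU : U ∈ 𝓝 (0 : Gd)) : ∃ χ ∈ U, χ ≠ 0 := by
  have e : 𝓝 (0 : Gd) = comap (ContinuousAddMonoidHom.toContinuousMap) (𝓝 (0 : C(Gp, T))) :=
    nhds_induced _ _
  rw [e, mem_comap] at hU
  obtain ⟨V, hV, hVU⟩ := hU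
  have hb := nhds_basis_uniformity'
    (Metric.uniformity_basis_dist (α := T)).compactConvergenceUniformity
    (x := (0 : C(Gp, T)))
  rw [hb.mem_iff] at hV
  obtain ⟨⟨K, ε⟩, ⟨hK, hε⟩, hKV⟩ := hV
  simp only at hK hε
  -- a finite net
  obtain ⟨t, htK, htfin, htc⟩ := hK.finite_cover_balls (e := ε / 4) (by positivity)
  have hft : Fintype t := htfin.fintype
  let F : ℕ → (t → T) := fun k x => (x : Gp) k
  obtain ⟨a, φ, hφ, hlim⟩ := CompactSpace.tendsto_subseq F
  have hcau := hlim.cauchySeq
  rw [Metric.cauchySeq_iff] at hcau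
  obtain ⟨N, hN⟩ := hcau (ε / 4) (by positivity)
  have hd := hN N le_rfl (N + 1) (Nat.le_succ N)
  simp only [Function.comp] at hd
  rw [dist_pi_lt_iff (by positivity)] at hd
  refine ⟨cood (φ N) - cood (φ (N + 1)), hVU (hKV ?_), ?_⟩
  · intro x hx
    change dist ((0 : C(Gp, T)) x) ((cood (φ N) - cood (φ (N + 1))) x) < ε
    have hx' := htc hx
    simp only [Set.mem_iUnion] at hx'
    obtain ⟨y, hy, hxy⟩ := hx'
    have h1 := hd ⟨y, hy⟩
    have e1 : (cood (φ N) - cood (φ (N + 1))) x = x (φ N) - x (φ (N + 1)) := rfl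
    have e2 : (0 : C(Gp, T)) x = 0 := rfl
    rw [e1, e2, dist_zero_left]
    have h2 : dist (x (φ N)) (y (φ N)) < ε / 4 :=
      lt_of_le_of_lt (BoundedContinuousFunction.dist_coe_le_dist _) hxy
    have h3 : dist (x (φ (N + 1))) (y (φ (N + 1))) < ε / 4 :=
      lt_of_le_of_lt (BoundedContinuousFunction.dist_coe_le_dist _) hxy
    have h4 : dist (y (φ N)) (y (φ (N + 1))) < ε / 4 := h1
    rw [← dist_eq_norm]
    calc dist (x (φ N)) (x (φ (N + 1)))
        ≤ dist (x (φ N)) (y (φ N)) + dist (y (φ N)) (y (φ (N + 1))) +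
          dist (y (φ (N + 1))) (x (φ (N + 1))) := dist_triangle4 _ _ _ _
      _ < ε / 4 + ε / 4 + ε / 4 := by
          rw [dist_comm (y (φ (N + 1)))]
          linarith
      _ < ε := by linarith
  · intro h
    have h1 : (cood (φ N) - cood (φ (N + 1))) (ind {φ N} half) = 0 := by
      rw [h]
      rfl
    have e1 : (cood (φ N) - cood (φ (N + 1))) (ind {φ N} half) =
        ind {φ N} half (φ N) - ind {φ N} half (φ (N + 1)) := rfl
    have hne : φ (N + 1) ≠ φ N := (hφ (Nat.lt_succ_self N)).ne'
    rw [e1, ind_apply, ind_apply, if_pos (Set.mem_singleton _), if_neg (by simpa using hne),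
      sub_zero] at h1
    have h2 := norm_half
    rw [h1, norm_zero] at h2
    norm_num at h2

/-- The group is not separable. -/
theorem not_separable : ¬ TopologicalSpace.SeparableSpace Gp := by
  classical
  intro hsep
  have h1 : (Set.univ : Set (Set ℕ)).PairwiseDisjoint fun A => Metric.ball (ind A half) (1 / 4) := by
    intro A _ B _ hAB
    rw [Function.onFun, Set.disjoint_left]
    intro x hxA hxB
    obtain ⟨k, hk⟩ : ∃ k, ¬ (k ∈ A ↔ k ∈ B) := by
      by_contra hc
      push Not at hc
      exact hAB (Set.ext hc)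
    have h2 : dist (ind A half) (ind B half) < 1 / 2 := by
      have := dist_triangle_right (ind A half) (ind B half) x
      rw [Metric.mem_ball, dist_comm] at hxA hxB
      linarith
    have h3 : dist (ind A half k) (ind B half k) < 1 / 2 :=
      lt_of_le_of_lt (BoundedContinuousFunction.dist_coe_le_dist k) h2
    rw [ind_apply, ind_apply] at h3
    by_cases hA : k ∈ A
    · have hB : k ∉ B := fun h => hk ⟨fun _ => h, fun _ => hA⟩
      rw [if_pos hA, if_neg hB, dist_zero_right, norm_half] at h3
      exact lt_irrefl _ h3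
    · have hB : k ∈ B := by
        by_contra h
        exact hk ⟨fun h' => absurd h' hA, fun h' => absurd h' h⟩
      rw [if_neg hA, if_pos hB, dist_zero_left, norm_half] at h3
      exact lt_irrefl _ h3
  have h2 := h1.countable_of_isOpen (fun _ _ => Metric.isOpen_ball)
    (fun A _ => ⟨ind A half, Metric.mem_ball_self (by norm_num)⟩)
  rw [Set.countable_univ_iff] at h2
  obtain ⟨f, hf⟩ := exists_surjective_nat (Set ℕ)
  exact Function.cantor_surjective f hf

end Q16.Tor
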